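import Pool.Agent.J4.H72.FR.Sep

/-!
# Truncated cones: the second lattice
-/

set_option autoImplicit false

namespace Pool.Agent.J4.H72.FR

open Pool.Agent.N334.CN (V)

noncomputable def cB (τ : ℝ) (r : V) : ℝ :=
  1 + 3 / 4 * (r 0 + r 1) - r 2 / 2 + τ / 2 * (1 + (r 0 + r 1) / 2)
noncomputable def uB (τ : ℝ) (r : V) : V := ![-(cB τ r), cB τ r, 0]
noncomputable def vB (τ : ℝ) (r : V) : V :=
  ![-(1 + r 2) + (3 / 2 + τ / 2) * (1 + r 1), -((3 / 2 + τ / 2) * (1 + r 1)), 1 + r 2]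
noncomputable def qB (τ : ℝ) (r : V) : V := ![1 / 2 + r 0 + τ / 2 - cB τ r, 1 / 2 + r 1 + τ / 2,
  -(3 / 2) - r 0 - r 1 - τ / 2 + cB τ r]

/-- a lattice vector -/
noncomputable def DD (τ : ℝ) (r : V) (i j k : ℤ) : V :=
  fun n => (i : ℝ) * uB τ r n + (j : ℝ) * vB τ r n + (k : ℝ) * qB τ r n

lemma DD0 (τ : ℝ) (r : V) (i j k : ℤ) : DD τ r i j k 0 = (i : ℝ) * -(cB τ r) +
    (j : ℝ) * (-(1 + r 2) + (3 / 2 + τ / 2) * (1 + r 1)) +
    (k : ℝ) * (1 / 2 + r 0 + τ / 2 - cB τ r) := by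
  simp [DD, uB, vB, qB]

lemma DD1 (τ : ℝ) (r : V) (i j k : ℤ) : DD τ r i j k 1 = (i : ℝ) * cB τ r +
    (j : ℝ) * -((3 / 2 + τ / 2) * (1 + r 1)) + (k : ℝ) * (1 / 2 + r 1 + τ / 2) := by
  simp [DD, uB, vB, qB]

lemma DD2 (τ : ℝ) (r : V) (i j k : ℤ) : DD τ r i j k 2 = (j : ℝ) * (1 + r 2) +
    (k : ℝ) * (-(3 / 2) - r 0 - r 1 - τ / 2 + cB τ r) := by
  simp [DD, uB, vB, qB]

lemma DDsum (τ : ℝ) (r : V) (i j k : ℤ) :
    -(DD τ r i j k 0 + DD τ r i j k 1 + DD τ r i j k 2) = (k : ℝ) * (1 - τ) / 2 := by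
  rw [DD0, DD1, DD2]
  ring

lemma DDneg (τ : ℝ) (r : V) (i j k : ℤ) : DD τ r (-i) (-j) (-k) = -DD τ r i j k := by
  funext n
  simp only [DD, Pi.neg_apply]
  push_cast
  ring

/-- the case `k ≥ 0` -/
lemma sepB {τ : ℝ} (hτ : 0 ≤ τ) (hτ1 : τ ≤ 1) (r : V) (h0 : ∀ n, 0 ≤ r n) (h1 : ∀ n, r n ≤ 1)
    (h21 : r 2 ≤ r 1) (h20 : r 2 ≤ r 0)
    (i j k : ℤ) (hk : 0 ≤ k) (hne : ¬ (i = 0 ∧ j = 0 ∧ k = 0)) : SepT τ r (DD τ r i j k) := by
  have a0 := h0 0
  have b0 := h0 1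
  have e0 := h0 2
  have a1 := h1 0
  have b1 := h1 1
  have e1 := h1 2
  have hx : 0 ≤ τ * (r 0 + r 1) := mul_nonneg hτ (by linarith)
  have hx' : 0 ≤ (1 - τ) * (2 - (r 0 + r 1)) := mul_nonneg (by linarith) (by linarith)
  have hcc : cB τ r = 1 + 3 / 4 * (r 0 + r 1) - r 2 / 2 + τ / 2 * (1 + (r 0 + r 1) / 2) := rfl
  have hcl : 1 + 3 / 4 * (r 0 + r 1) - r 2 / 2 ≤ cB τ r := by rw [hcc]; nlinarith
  have hc : 0 ≤ cB τ r := by linarith
  rw [SepT, DDsum]
  have hkr : (0 : ℝ) ≤ k := by exact_mod_cast hk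
  have hτ' : 0 ≤ 1 - τ := by linarith
  refine ⟨by positivity, ?_⟩
  rcases le_or_gt 2 k with hk2 | hk2
  · left
    have : (2 : ℝ) ≤ k := by exact_mod_cast hk2
    nlinarith
  right
  obtain rfl | rfl : k = 0 ∨ k = 1 := by omega
  · -- `k = 0`
    rcases lt_trichotomy j 0 with hj | hj | hj
    · have hj' : (j : ℝ) ≤ -1 := by exact_mod_cast (by omega : j ≤ -1)
      refine ⟨2, Or.inr ?_⟩
      rw [DD2]
      push_cast
      nlinarith
    · subst hj
      have hi : i ≠ 0 := fun h => hne ⟨h, rfl, rfl⟩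
      rcases le_or_gt (r 1) (r 0) with hab | hab
      · have hcb : 1 + r 1 ≤ cB τ r := by linarith
        rcases lt_or_gt_of_ne hi with hi' | hi'
        · have hi'' : (i : ℝ) ≤ -1 := by exact_mod_cast (by omega : i ≤ -1)
          refine ⟨1, Or.inr ?_⟩
          rw [DD1]
          push_cast
          nlinarith
        · have hi'' : (1 : ℝ) ≤ i := by exact_mod_cast (by omega : 1 ≤ i)
          refine ⟨1, Or.inl ?_⟩
          rw [DD1]
          push_cast
          nlinarith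
      · have hcb : 1 + r 0 ≤ cB τ r := by linarith
        rcases lt_or_gt_of_ne hi with hi' | hi'
        · have hi'' : (i : ℝ) ≤ -1 := by exact_mod_cast (by omega : i ≤ -1)
          refine ⟨0, Or.inl ?_⟩
          rw [DD0]
          push_cast
          nlinarith
        · have hi'' : (1 : ℝ) ≤ i := by exact_mod_cast (by omega : 1 ≤ i)
          refine ⟨0, Or.inr ?_⟩
          rw [DD0]
          push_cast
          nlinarith
    · have hj' : (1 : ℝ) ≤ j := by exact_mod_cast (by omega : 1 ≤ j)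
      refine ⟨2, Or.inl ?_⟩
      rw [DD2]
      push_cast
      nlinarith
  · -- `k = 1`
    rcases le_or_gt j (-1) with hj | hj
    · have hj' : (j : ℝ) ≤ -1 := by exact_mod_cast hj
      refine ⟨2, Or.inr ?_⟩
      rw [DD2, hcc]
      push_cast
      have h5 : 0 ≤ (-1 - (j : ℝ)) * (1 + r 2) := mul_nonneg (by linarith) (by linarith)
      have h6 : 0 ≤ r 2 * (1 - τ) := mul_nonneg e0 hτ'
      nlinarith
    rcases le_or_gt 2 j with hj2 | hj2
    · have hj' : (2 : ℝ) ≤ j := by exact_mod_cast hj2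
      refine ⟨2, Or.inl ?_⟩
      rw [DD2, hcc]
      push_cast
      have h5 : 0 ≤ ((j : ℝ) - 2) * (1 + r 2) := mul_nonneg (by linarith) (by linarith)
      nlinarith
    obtain rfl | rfl : j = 0 ∨ j = 1 := by omega
    · rcases le_or_gt 0 i with hi | hi
      · have hi' : (0 : ℝ) ≤ i := by exact_mod_cast hi
        have h5 := mul_nonneg hi' hc
        refine ⟨1, Or.inl ?_⟩
        rw [DD1]
        push_cast
        linarith
      · have hi' : (0 : ℝ) ≤ -1 - i := by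
          have : (i : ℝ) ≤ -1 := by exact_mod_cast (by omega : i ≤ -1)
          linarith
        have h5 := mul_nonneg hi' hc
        refine ⟨0, Or.inl ?_⟩
        rw [DD0]
        push_cast
        linarith
    · rcases le_or_gt i 0 with hi | hi
      · have hi' : (0 : ℝ) ≤ -i := by
          have : (i : ℝ) ≤ 0 := by exact_mod_cast hi
          linarith
        have h5 := mul_nonneg hi' hc
        refine ⟨1, Or.inr ?_⟩
        rw [DD1]
        push_cast
        linarith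
      · have hi' : (0 : ℝ) ≤ i - 1 := by
          have : (1 : ℝ) ≤ i := by exact_mod_cast (by omega : 1 ≤ i)
          linarith
        have h5 := mul_nonneg hi' hc
        refine ⟨0, Or.inr ?_⟩
        rw [DD0]
        push_cast
        have h6 : (i : ℝ) * -(cB τ r) = -(((i : ℝ) - 1) * cB τ r) - cB τ r := by ring
        rw [h6]
        generalize ((i : ℝ) - 1) * cB τ r = w at *
        rw [hcc]
        linarith

theorem outB {τ : ℝ} (hτ : 0 ≤ τ) (hτ1 : τ ≤ 1) (r : V) (h0 : ∀ n, 0 ≤ r n) (h1 : ∀ n, r n ≤ 1)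
    (h21 : r 2 ≤ r 1) (h20 : r 2 ≤ r 0) (i j k : ℤ) (hne : ¬ (i = 0 ∧ j = 0 ∧ k = 0)) :
    OutT τ r (fun n => (i : ℝ) * uB τ r n + (j : ℝ) * vB τ r n + (k : ℝ) * qB τ r n) := by
  change OutT τ r (DD τ r i j k)
  rcases le_or_gt 0 k with hk | hk
  · exact Or.inl (sepB hτ hτ1 r h0 h1 h21 h20 i j k hk hne)
  · refine Or.inr ?_
    rw [← DDneg]
    exact sepB hτ hτ1 r h0 h1 h21 h20 (-i) (-j) (-k) (by omega) (by
      rintro ⟨ha, hb, hc⟩
      exact hne ⟨by omega, by omega, by omega⟩)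

end Pool.Agent.J4.H72.FR
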