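import Pool.Agent.J4.H72.FR.LatA
import Pool.Agent.J4.H72.FR.LatB
import Pool.Agent.N91.CN.CI

/-!
# Truncated cones: the two determinants
-/

set_option autoImplicit false

namespace Pool.Agent.J4.H72.FR

open Pool.Agent.N334.CN (V dA dB)

/-- determinants divided by `1 - τ` -/
noncomputable def eA (τ : ℝ) (r : V) : ℝ := dA r +
  τ / 9 * (1 + r 0 + r 1 + r 2) * (7 / 3 + r 0 + r 1 + r 2) + τ ^ 2 / 27 * (1 + r 0 + r 1 + r 2) ^ 2
noncomputable def eB (τ : ℝ) (r : V) : ℝ := (1 + r 2) * cB τ r / 2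

theorem detA (τ : ℝ) (r : V) : Matrix.det ![uA τ r, vA τ r, qA τ r] = -((1 - τ) * eA τ r) := by
  rw [Matrix.det_fin_three]
  simp only [uA, vA, qA, eA, dA, Matrix.cons_val_zero, Matrix.cons_val_one, Matrix.cons_val]
  ring

theorem detB (τ : ℝ) (r : V) : Matrix.det ![uB τ r, vB τ r, qB τ r] = -((1 - τ) * eB τ r) := by
  rw [Matrix.det_fin_three]
  simp only [uB, vB, qB, eB, cB, Matrix.cons_val_zero, Matrix.cons_val_one, Matrix.cons_val]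
  ring

theorem eA_pos {τ : ℝ} (hτ : 0 ≤ τ) {r : V} (h0 : ∀ n, 0 ≤ r n) (h1 : ∀ n, r n ≤ 1) :
    0 < eA τ r := by
  have a0 := h0 0
  have b0 := h0 1
  have c0 := h0 2
  have a1 := h1 0
  have b1 := h1 1
  have c1 := h1 2
  have hdA : 0 < dA r := by
    unfold dA
    have h1 := mul_nonneg a0 c0
    have h2 := mul_nonneg b0 c0
    nlinarith
  unfold eA
  have h2 : 0 ≤ τ / 9 * (1 + r 0 + r 1 + r 2) * (7 / 3 + r 0 + r 1 + r 2) :=
    mul_nonneg (mul_nonneg (by linarith) (by linarith)) (by linarith)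
  have h3 : 0 ≤ τ ^ 2 / 27 * (1 + r 0 + r 1 + r 2) ^ 2 := by positivity
  linarith

theorem eB_pos {τ : ℝ} (hτ : 0 ≤ τ) {r : V} (h0 : ∀ n, 0 ≤ r n) (h1 : ∀ n, r n ≤ 1) :
    0 < eB τ r := by
  have a0 := h0 0
  have b0 := h0 1
  have c0 := h0 2
  have a1 := h1 0
  have b1 := h1 1
  have c1 := h1 2
  have hc : 0 < cB τ r := by
    unfold cB
    have h2 : 0 ≤ τ / 2 * (1 + (r 0 + r 1) / 2) := mul_nonneg (by linarith) (by linarith)
    linarith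
  unfold eB
  have := mul_pos (show 0 < 1 + r 2 by linarith) hc
  linarith

/-- `Σ ≤ 3/2` -/
theorem sum_le {r : V} (h0 : 0 ≤ r 0) (h01 : r 0 ≤ 1) (h : (1 + r 0) * (r 1 + r 2) ≤ 1) :
    r 0 + r 1 + r 2 ≤ 3 / 2 := by
  nlinarith

theorem eA_le {τ : ℝ} (hτ : 0 ≤ τ) {r : V} (h0 : ∀ n, 0 ≤ r n)
    (hs : r 0 + r 1 + r 2 ≤ 3 / 2) :
    108 * eA τ r - 49 * (1 + r 0 + r 1 + r 2) ≤
      (108 * dA r - 49 * (1 + r 0 + r 1 + r 2)) +
        (46 * τ + 10 * τ ^ 2) * (1 + r 0 + r 1 + r 2) := by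
  have a0 := h0 0
  have b0 := h0 1
  have c0 := h0 2
  unfold eA
  generalize dA r = d
  have hS : 0 ≤ r 0 + r 1 + r 2 := by linarith
  obtain ⟨S, hSd⟩ : ∃ S, S = r 0 + r 1 + r 2 := ⟨_, rfl⟩
  have e1 : 1 + r 0 + r 1 + r 2 = 1 + S := by rw [hSd]; ring
  have e2 : 7 / 3 + r 0 + r 1 + r 2 = 7 / 3 + S := by rw [hSd]; ring
  rw [e1, e2]
  rw [← hSd] at hS hs
  have h2 : 0 ≤ τ * (1 + S) * (3 / 2 - S) :=
    mul_nonneg (mul_nonneg hτ (by linarith)) (by linarith)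
  have h3 : 0 ≤ τ ^ 2 * (1 + S) * (3 / 2 - S) :=
    mul_nonneg (mul_nonneg (by positivity) (by linarith)) (by linarith)
  nlinarith

theorem eB_le {τ : ℝ} (hτ : 0 ≤ τ) {r : V} (h0 : ∀ n, 0 ≤ r n) (h1 : ∀ n, r n ≤ 1) :
    108 * eB τ r - 49 * (1 + r 0 + r 1 + r 2) ≤
      (108 * dB r - 49 * (1 + r 0 + r 1 + r 2)) +
        (46 * τ + 10 * τ ^ 2) * (1 + r 0 + r 1 + r 2) := by
  have a0 := h0 0
  have b0 := h0 1
  have c0 := h0 2
  have a1 := h1 0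
  have b1 := h1 1
  have c1 := h1 2
  have e : eB τ r = dB r + (1 + r 2) * (τ / 2 * (1 + (r 0 + r 1) / 2)) / 2 := by
    unfold eB cB dB Pool.Agent.N334.CN.cB
    ring
  rw [e]
  generalize dB r = d
  have h2 : 0 ≤ τ ^ 2 * (1 + r 0 + r 1 + r 2) := mul_nonneg (by positivity) (by linarith)
  have h3 : 0 ≤ τ * (r 2 * (2 - (r 0 + r 1))) :=
    mul_nonneg hτ (mul_nonneg c0 (by linarith))
  have h4 : 0 ≤ τ * (r 0 + r 1) := mul_nonneg hτ (by linarith)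
  have h5 : 0 ≤ τ * (1 - r 2) := mul_nonneg hτ (by linarith)
  nlinarith

end Pool.Agent.J4.H72.FR
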