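import Pool.Agent.J4.H72.FR.Sep

/-!
# Truncated cones: the first lattice
-/

set_option autoImplicit false

namespace Pool.Agent.J4.H72.FR

open Pool.Agent.N334.CN (V)

/-- the inequalities, in coordinates: `a, b, c` are the numbers `r 0, r 1, r 2`; `x, y, z` the
coefficients -/
def Alt (a b c x y z : ℝ) : Prop :=
  1 ≤ (x + y + z) / 3 ∨
  ((1 + a ≤ (7 / 6 * x - (x + y + z) / 2 + a * (x - z) + b * (z / 3 - y) - 2 / 3 * c * z) + (x + y + z) / 3 ∧
      x + y + z ≤ x) ∨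
   (1 + a ≤ -(7 / 6 * x - (x + y + z) / 2 + a * (x - z) + b * (z / 3 - y) - 2 / 3 * c * z) +
      a * ((x + y + z) / 3) ∧ x ≤ 0)) ∨
  ((1 + b ≤ (7 / 6 * y - (x + y + z) / 2 + a * (z - x) + b * (y - z / 3) + c / 3 * (x - z)) + (x + y + z) / 3 ∧
      x + y + z ≤ y) ∨
   (1 + b ≤ -(7 / 6 * y - (x + y + z) / 2 + a * (z - x) + b * (y - z / 3) + c / 3 * (x - z)) +
      b * ((x + y + z) / 3) ∧ y ≤ 0)) ∨
  ((1 + c ≤ (7 / 6 * z - (x + y + z) / 2 + c * (z - x / 3)) + (x + y + z) / 3 ∧ x + y + z ≤ z) ∨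
   (1 + c ≤ -(7 / 6 * z - (x + y + z) / 2 + c * (z - x / 3)) + c * ((x + y + z) / 3) ∧ z ≤ 0))

lemma core (a b c : ℝ) (ha : 0 ≤ a) (hb : 0 ≤ b) (hc : 0 ≤ c) (_ha : a ≤ 1) (_hb : b ≤ 1) (_hc : c ≤ 1)
    (i j k : ℤ) (hs : 0 ≤ i + j + k) (hs0 : i + j + k = 0 → 0 < k ∨ (k = 0 ∧ 0 < i)) :
    Alt a b c i j k := by
  unfold Alt
  by_cases h3 : 3 ≤ i + j + k
  · left
    have : (3 : ℝ) ≤ i + j + k := by exact_mod_cast h3
    linarith
  right
  have hlt : i + j + k ≤ 2 := by omega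
  interval_cases hS : i + j + k
  · -- s = 0
    obtain rfl : j = -i - k := by omega
    push_cast
    rcases hs0 rfl with hk | ⟨rfl, hi⟩
    · by_cases h : i ≤ 3 * (k - 1)
      · right; right; left
        have hR : (i : ℝ) ≤ 3 * (k - 1) := by exact_mod_cast h
        have hk' : (1 : ℝ) ≤ k := by exact_mod_cast hk
        have h4 : 0 ≤ c * ((k : ℝ) - i / 3 - 1) := mul_nonneg hc (by linarith)
        exact ⟨by nlinarith, by linarith⟩
      · right; left; right
        have h' : 3 * k - 2 ≤ i := by omega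
        have hR : 3 * (k : ℝ) - 2 ≤ i := by exact_mod_cast h'
        have hk' : (1 : ℝ) ≤ k := by exact_mod_cast hk
        have h4 : 0 ≤ a * ((i : ℝ) - k) := mul_nonneg ha (by linarith)
        have h5 : 0 ≤ (1 - c) * ((i : ℝ) - k) := mul_nonneg (by linarith) (by linarith)
        have h6 : 0 ≤ b * ((i : ℝ) + 4 * k / 3 - 1) := mul_nonneg hb (by linarith)
        exact ⟨by nlinarith, by linarith⟩
    · left; left
      push_cast
      have hi' : (1 : ℝ) ≤ i := by exact_mod_cast hi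
      have h4 : 0 ≤ a * ((i : ℝ) - 1) := mul_nonneg ha (by linarith)
      have h5 : 0 ≤ b * (i : ℝ) := mul_nonneg hb (by linarith)
      exact ⟨by nlinarith, by linarith⟩
  · -- s = 1
    obtain rfl : j = 1 - i - k := by omega
    push_cast
    rcases lt_trichotomy k 0 with hk | rfl | hk
    · by_cases h : -(13 * (-k) - 7) ≤ 2 * i
      · right; right; right
        have hR : -(13 * (-(k : ℝ)) - 7) ≤ 2 * i := by exact_mod_cast h
        have hk' : (k : ℝ) ≤ -1 := by exact_mod_cast (by omega : k ≤ -1)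
        have h4 : 0 ≤ (1 - c) * (-7 / 6 * (k : ℝ) - 1 / 2) := mul_nonneg (by linarith) (by linarith)
        have h5 : 0 ≤ c * (-13 / 6 * (k : ℝ) + i / 3 - 7 / 6) := mul_nonneg hc (by linarith)
        exact ⟨by nlinarith, by linarith⟩
      · right; left; left
        have hi : i ≤ k := by omega
        have hiR : (i : ℝ) ≤ k := by exact_mod_cast hi
        have h' : 2 * i ≤ -(13 * (-k) - 7) - 1 := by omega
        have hR : 2 * (i : ℝ) ≤ -(13 * (-(k : ℝ)) - 7) - 1 := by exact_mod_cast h'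
        have hk' : (k : ℝ) ≤ -1 := by exact_mod_cast (by omega : k ≤ -1)
        have h4 : 0 ≤ a * ((k : ℝ) - i) := mul_nonneg ha (by linarith)
        have h5 : 0 ≤ (1 - c) * ((k : ℝ) - i) := mul_nonneg (by linarith) (by linarith)
        have h6 : 0 ≤ b * (-(i : ℝ) - 4 * k / 3) := mul_nonneg hb (by linarith)
        exact ⟨by nlinarith, by linarith⟩
    · push_cast
      by_cases h : 1 ≤ i
      · left; left
        have hi' : (1 : ℝ) ≤ i := by exact_mod_cast h
        have h4 : 0 ≤ a * ((i : ℝ) - 1) := mul_nonneg ha (by linarith)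
        have h5 : 0 ≤ b * ((i : ℝ) - 1) := mul_nonneg hb (by linarith)
        exact ⟨by nlinarith, by linarith⟩
      · right; left; left
        have hi' : (i : ℝ) ≤ 0 := by exact_mod_cast (by omega : i ≤ 0)
        have h4 : 0 ≤ a * (-(i : ℝ)) := mul_nonneg ha (by linarith)
        have h5 : 0 ≤ (1 - c) * (-(i : ℝ)) := mul_nonneg (by linarith) (by linarith)
        have h6 : 0 ≤ b * (-(i : ℝ)) := mul_nonneg hb (by linarith)
        exact ⟨by nlinarith, by linarith⟩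
    · by_cases h : i ≤ 3 * k - 3
      · right; right; left
        have hR : (i : ℝ) ≤ 3 * k - 3 := by exact_mod_cast h
        have hk' : (1 : ℝ) ≤ k := by exact_mod_cast hk
        have h4 : 0 ≤ c * ((k : ℝ) - i / 3 - 1) := mul_nonneg hc (by linarith)
        exact ⟨by nlinarith, by linarith⟩
      · right; left; right
        have h' : 3 * k - 2 ≤ i := by omega
        have hR : 3 * (k : ℝ) - 2 ≤ i := by exact_mod_cast h'
        have hk' : (1 : ℝ) ≤ k := by exact_mod_cast hk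
        have h4 : 0 ≤ a * ((i : ℝ) - k) := mul_nonneg ha (by linarith)
        have h5 : 0 ≤ (1 - c) * ((i : ℝ) - k) := mul_nonneg (by linarith) (by linarith)
        have h6 : 0 ≤ b * ((i : ℝ) + 4 * k / 3 - 5 / 3) := mul_nonneg hb (by linarith)
        exact ⟨by nlinarith, by linarith⟩
  · -- s = 2
    obtain rfl : j = 2 - i - k := by omega
    push_cast
    rcases lt_trichotomy k 0 with hk | rfl | hk
    · by_cases h : 2 - 13 * (-k) ≤ 2 * i
      · right; right; right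
        have hR : 2 - 13 * (-(k : ℝ)) ≤ 2 * i := by exact_mod_cast h
        have hk' : (k : ℝ) ≤ -1 := by exact_mod_cast (by omega : k ≤ -1)
        have h4 : 0 ≤ (1 - c) * (-7 / 6 * (k : ℝ)) := mul_nonneg (by linarith) (by linarith)
        have h5 : 0 ≤ c * (-13 / 6 * (k : ℝ) + i / 3 - 1 / 3) := mul_nonneg hc (by linarith)
        exact ⟨by nlinarith, by linarith⟩
      · right; left; left
        have hi : i ≤ k := by omega
        have hiR : (i : ℝ) ≤ k := by exact_mod_cast hi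
        have h' : 2 * i ≤ 2 - 13 * (-k) - 1 := by omega
        have hR : 2 * (i : ℝ) ≤ 2 - 13 * (-(k : ℝ)) - 1 := by exact_mod_cast h'
        have hk' : (k : ℝ) ≤ -1 := by exact_mod_cast (by omega : k ≤ -1)
        have h4 : 0 ≤ a * ((k : ℝ) - i) := mul_nonneg ha (by linarith)
        have h5 : 0 ≤ (1 - c) * ((k : ℝ) - i) := mul_nonneg (by linarith) (by linarith)
        have h6 : 0 ≤ b * (-(i : ℝ) - 4 * k / 3) := mul_nonneg hb (by linarith)
        exact ⟨by nlinarith, by linarith⟩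
    · push_cast
      by_cases h : 1 ≤ i
      · right; right; right
        have hi' : (1 : ℝ) ≤ i := by exact_mod_cast h
        have h4 : 0 ≤ c * ((i : ℝ) - 1) := mul_nonneg hc (by linarith)
        exact ⟨by nlinarith, by linarith⟩
      · right; left; left
        have hi' : (i : ℝ) ≤ 0 := by exact_mod_cast (by omega : i ≤ 0)
        have h4 : 0 ≤ a * (-(i : ℝ)) := mul_nonneg ha (by linarith)
        have h5 : 0 ≤ (1 - c) * (-(i : ℝ)) := mul_nonneg (by linarith) (by linarith)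
        have h6 : 0 ≤ b * (-(i : ℝ)) := mul_nonneg hb (by linarith)
        exact ⟨by nlinarith, by linarith⟩
    · by_cases hk1 : k = 1
      · subst hk1
        push_cast
        by_cases h : 1 ≤ i
        · right; left; right
          have hi' : (1 : ℝ) ≤ i := by exact_mod_cast h
          have h4 : 0 ≤ a * ((i : ℝ) - 1) := mul_nonneg ha (by linarith)
          have h5 : 0 ≤ (1 - c) * ((i : ℝ) - 1) := mul_nonneg (by linarith) (by linarith)
          have h6 : 0 ≤ b * ((i : ℝ) - 1) := mul_nonneg hb (by linarith)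
          exact ⟨by nlinarith, by linarith⟩
        · left; right
          have hi' : (i : ℝ) ≤ 0 := by exact_mod_cast (by omega : i ≤ 0)
          have h4 : 0 ≤ a * (-(i : ℝ)) := mul_nonneg ha (by linarith)
          have h6 : 0 ≤ b * (-(i : ℝ)) := mul_nonneg hb (by linarith)
          exact ⟨by nlinarith, by linarith⟩
      have hk2 : 2 ≤ k := by omega
      have hk' : (2 : ℝ) ≤ k := by exact_mod_cast hk2
      by_cases h : i ≤ 3 * k
      · right; right; left
        have hR : (i : ℝ) ≤ 3 * k := by exact_mod_cast h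
        have h4 : 0 ≤ (1 - c) * (7 / 6 * (k : ℝ) - 4 / 3) := mul_nonneg (by linarith) (by linarith)
        have h5 : 0 ≤ c * (13 / 6 * (k : ℝ) - i / 3 - 7 / 3) := mul_nonneg hc (by linarith)
        exact ⟨by nlinarith, by linarith⟩
      · right; left; right
        have h' : 3 * k + 1 ≤ i := by omega
        have hR : 3 * (k : ℝ) + 1 ≤ i := by exact_mod_cast h'
        have h4 : 0 ≤ a * ((i : ℝ) - k) := mul_nonneg ha (by linarith)
        have h5 : 0 ≤ (1 - c) * ((i : ℝ) - k) := mul_nonneg (by linarith) (by linarith)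
        have h6 : 0 ≤ b * ((i : ℝ) + 4 * k / 3 - 3) := mul_nonneg hb (by linarith)
        exact ⟨by nlinarith, by linarith⟩


noncomputable def uA (τ : ℝ) (r : V) : V := ![2 / 3 + r 0 + τ / 3 * (1 + r 1 + r 2),
  -(1 / 2) - r 0 + r 2 / 3 - τ / 3 * r 1, -(1 / 2) - r 2 / 3 - τ / 3 * r 2]
noncomputable def vA (τ : ℝ) (r : V) : V := ![-(1 / 2) - r 1 - τ / 3 * r 0,
  2 / 3 + r 1 + τ / 3 * (1 + r 0 + r 2), -(1 / 2) - τ / 3 * r 2]
noncomputable def qA (τ : ℝ) (r : V) : V := ![-(1 / 2) - r 0 + r 1 / 3 - 2 * r 2 / 3 - τ / 3 * r 0,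
  -(1 / 2) + r 0 - r 1 / 3 - r 2 / 3 - τ / 3 * r 1, 2 / 3 + r 2 + τ / 3 * (1 + r 0 + r 1)]

lemma sepA {τ : ℝ} (hτ : 0 ≤ τ) (hτ1 : τ ≤ 1) (r : V) (h0 : ∀ n, 0 ≤ r n) (h1 : ∀ n, r n ≤ 1)
    (i j k : ℤ) (hs : 0 ≤ i + j + k) (hs0 : i + j + k = 0 → 0 < k ∨ (k = 0 ∧ 0 < i)) :
    SepT τ r (fun n => (i : ℝ) * uA τ r n + (j : ℝ) * vA τ r n + (k : ℝ) * qA τ r n) := by
  have hc := core (r 0) (r 1) (r 2) (h0 0) (h0 1) (h0 2) (h1 0) (h1 1) (h1 2) i j k hs hs0
  have hsR : (0 : ℝ) ≤ i + j + k := by exact_mod_cast hs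
  have a0 := h0 0
  have b0 := h0 1
  have c0 := h0 2
  set a := r 0 with ha
  set b := r 1 with hb
  set c := r 2 with hcc
  set D : V := fun n => (i : ℝ) * uA τ r n + (j : ℝ) * vA τ r n + (k : ℝ) * qA τ r n with hD
  have e0 : D 0 = (7 / 6 * i - ((i : ℝ) + j + k) / 2 + a * (i - k) + b * (k / 3 - j) - 2 / 3 * c * k) +
      τ / 3 * ((1 + a + b + c) * i - a * ((i : ℝ) + j + k)) := by
    simp only [hD, uA, vA, qA, Matrix.cons_val_zero, ha, hb, hcc]
    ring
  have e1 : D 1 = (7 / 6 * j - ((i : ℝ) + j + k) / 2 + a * (k - i) + b * (j - k / 3) +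
      c / 3 * (i - k)) + τ / 3 * ((1 + a + b + c) * j - b * ((i : ℝ) + j + k)) := by
    simp only [hD, uA, vA, qA, Matrix.cons_val_one, Matrix.cons_val_zero, ha, hb, hcc]
    ring
  have e2 : D 2 = (7 / 6 * k - ((i : ℝ) + j + k) / 2 + c * (k - i / 3)) +
      τ / 3 * ((1 + a + b + c) * k - c * ((i : ℝ) + j + k)) := by
    simp only [hD, uA, vA, qA, Matrix.cons_val, ha, hb, hcc]
    ring
  have eT : -(D 0 + D 1 + D 2) = ((i : ℝ) + j + k) / 3 - τ / 3 * ((i : ℝ) + j + k) := by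
    rw [e0, e1, e2]
    ring
  have inl : ∀ (ρ x : ℝ), 0 ≤ ρ → ρ ≤ a + b + c → (i : ℝ) + j + k ≤ x →
      0 ≤ τ / 3 * ((1 + a + b + c) * x - (1 + ρ) * ((i : ℝ) + j + k)) := by
    intro ρ x h2 h3 h4
    apply mul_nonneg (by linarith)
    have h5 : (1 + ρ) * ((i : ℝ) + j + k) ≤ (1 + a + b + c) * x :=
      mul_le_mul (by linarith) h4 hsR (by linarith)
    linarith
  have inr : ∀ x : ℝ, x ≤ 0 → 0 ≤ τ / 3 * ((1 + a + b + c) * (-x)) := fun x hx =>
    mul_nonneg (by linarith) (mul_nonneg (by linarith) (by linarith))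
  unfold SepT
  rw [eT]
  refine ⟨?_, ?_⟩
  · have : 0 ≤ ((i : ℝ) + j + k) * (1 - τ) := mul_nonneg hsR (by linarith)
    nlinarith
  unfold Alt at hc
  rcases hc with h | (⟨h, h'⟩ | ⟨h, h'⟩) | (⟨h, h'⟩ | ⟨h, h'⟩) | (⟨h, h'⟩ | ⟨h, h'⟩)
  · left
    have : 0 ≤ (((i : ℝ) + j + k) / 3 - 1) * (1 - τ) := mul_nonneg (by linarith) (by linarith)
    nlinarith
  · refine Or.inr ⟨0, Or.inl ?_⟩
    have h2 := inl a i a0 (by linarith) h'
    rw [e0, ← ha]
    linarith
  · refine Or.inr ⟨0, Or.inr ?_⟩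
    have h2 := inr i h'
    rw [e0, ← ha]
    linarith
  · refine Or.inr ⟨1, Or.inl ?_⟩
    have h2 := inl b j b0 (by linarith) h'
    rw [e1, ← hb]
    linarith
  · refine Or.inr ⟨1, Or.inr ?_⟩
    have h2 := inr j h'
    rw [e1, ← hb]
    linarith
  · refine Or.inr ⟨2, Or.inl ?_⟩
    have h2 := inl c k c0 (by linarith) h'
    rw [e2, ← hcc]
    linarith
  · refine Or.inr ⟨2, Or.inr ?_⟩
    have h2 := inr k h'
    rw [e2, ← hcc]
    linarith

theorem outA {τ : ℝ} (hτ : 0 ≤ τ) (hτ1 : τ ≤ 1) (r : V) (h0 : ∀ n, 0 ≤ r n) (h1 : ∀ n, r n ≤ 1)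
    (i j k : ℤ) (_hne : ¬ (i = 0 ∧ j = 0 ∧ k = 0)) :
    OutT τ r (fun n => (i : ℝ) * uA τ r n + (j : ℝ) * vA τ r n + (k : ℝ) * qA τ r n) := by
  by_cases h : 0 ≤ i + j + k ∧ (i + j + k = 0 → 0 < k ∨ (k = 0 ∧ 0 < i))
  · exact Or.inl (sepA hτ hτ1 r h0 h1 i j k h.1 h.2)
  · right
    have h2 := sepA hτ hτ1 r h0 h1 (-i) (-j) (-k) (by omega) (by omega)
    have h3 : (-(fun n => (i : ℝ) * uA τ r n + (j : ℝ) * vA τ r n + (k : ℝ) * qA τ r n) : V) =
        fun n => ((-i : ℤ) : ℝ) * uA τ r n + ((-j : ℤ) : ℝ) * vA τ r n + ((-k : ℤ) : ℝ) * qA τ r n := by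
      funext n
      simp only [Pi.neg_apply]
      push_cast
      ring
    rw [h3]
    exact h2

end Pool.Agent.J4.H72.FR
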