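import Pool.Agent.J4.H72.FR.Vol
import Pool.Agent.J4.H72.FR.Ineq
import Pool.Agent.N707.CN.VOL

/-!
# Truncated cones over planar convex bodies: the bound for `δ_L`
-/

set_option autoImplicit false

namespace Pool.Agent.J4.H72.FR

open MeasureTheory
open Pool.Agent.H349R2.Tet hiding V
open Pool.Agent.N334.CN (V NF isCompact_cone ratio_le e1849 dA dB)
open scoped ENNReal

/-- the lattice with given basis packs -/
theorem packs_of {τ : ℝ} {K : Set V} {r : V} (h0 : ∀ n, 0 ≤ r n) (h : Cons τ r K)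
    (b : Fin 3 → V) (hb : dt b ≠ 0)
    (hout : ∀ i j k : ℤ, ¬ (i = 0 ∧ j = 0 ∧ k = 0) →
      OutT τ r (fun n => (i : ℝ) * b 0 n + (j : ℝ) * b 1 n + (k : ℝ) * b 2 n)) : Packs K b := by
  rw [packs_iff]
  refine ⟨hb, ?_⟩
  rintro u ⟨z, hz⟩ hu ⟨x, hx, hxu⟩
  have hz0 : ¬ (z 0 = 0 ∧ z 1 = 0 ∧ z 2 = 0) := by
    rintro ⟨e0, e1, e2⟩
    apply hu
    rw [hz, Fin.sum_univ_three, e0, e1, e2]
    simp
  have h1 := hout _ _ _ hz0
  have h2 : (fun n => (z 0 : ℝ) * b 0 n + (z 1 : ℝ) * b 1 n + (z 2 : ℝ) * b 2 n) = u := by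
    funext n
    rw [hz, Fin.sum_univ_three]
    simp only [Pi.add_apply, Pi.smul_apply, smul_eq_mul]
  rw [h2] at h1
  have h3 := dis K r h0 h u h1
  have h4 : interior ((fun x => x + u) '' K) = (fun x => x + u) '' interior K :=
    pack_interior_tr K u
  rw [h4, Set.disjoint_left] at h3
  exact h3 hx ⟨x - u, hxu, by simp⟩

theorem le_of_vol {K : Set V} {v d β : ℝ} (hd : 0 < d) (hv : ENNReal.ofReal v ≤ volume K)
    (hvd : β * d ≤ v) : ENNReal.ofReal β ≤ volume K / ENNReal.ofReal d := by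
  refine le_trans ?_ (ENNReal.div_le_div_right hv _)
  rw [← ENNReal.ofReal_div_of_pos hd]
  apply ENNReal.ofReal_le_ofReal
  rwa [le_div_iff₀ hd]

theorem lt_of_vol {K : Set V} {v d β : ℝ} (hβ : 0 ≤ β) (hd : 0 < d)
    (hv : ENNReal.ofReal v ≤ volume K)
    (hvd : β * d < v) : ENNReal.ofReal β < volume K / ENNReal.ofReal d := by
  refine lt_of_lt_of_le ?_ (ENNReal.div_le_div_right hv _)
  rw [← ENNReal.ofReal_div_of_pos hd]
  have h1 : β < v / d := by rwa [lt_div_iff₀ hd]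
  exact (ENNReal.ofReal_lt_ofReal_iff (lt_of_le_of_lt hβ h1)).mpr h1

/-- the bound -/
noncomputable def bd (τ : ℝ) : ℝ := 18 * (1 + τ + τ ^ 2) / (49 + 46 * τ + 10 * τ ^ 2)

theorem bd_ge {τ : ℝ} (hτ : 0 ≤ τ) : 18 / 49 ≤ bd τ := by
  have hm : 0 < 49 + 46 * τ + 10 * τ ^ 2 := by positivity
  unfold bd
  rw [div_le_div_iff₀ (by norm_num) hm]
  nlinarith [sq_nonneg τ]

theorem bd_gt {τ : ℝ} (hτ : 0 < τ) : 18 / 49 < bd τ := by
  have hm : 0 < 49 + 46 * τ + 10 * τ ^ 2 := by positivity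
  unfold bd
  rw [div_lt_div_iff₀ (by norm_num) hm]
  nlinarith [sq_nonneg τ]

/-- one lattice -/
theorem one {τ : ℝ} (hτ : 0 ≤ τ) (hτ1 : τ < 1) {K : Set V} (hK : IsCompact K) {b : Fin 3 → V}
    (hP : Packs K b) {e R : ℝ} (he : 0 < e) (hdt : |dt b| = (1 - τ) * e)
    (hv : ENNReal.ofReal ((1 - τ ^ 3) * (R / 6)) ≤ volume K) :
    (108 * e ≤ (49 + 46 * τ + 10 * τ ^ 2) * R → ENNReal.ofReal (bd τ) ≤ deltaL K) ∧
    (108 * e < (49 + 46 * τ + 10 * τ ^ 2) * R → ENNReal.ofReal (bd τ) < deltaL K) := by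
  have h1 : 0 < 1 - τ := by linarith
  have hd : 0 < (1 - τ) * e := mul_pos h1 he
  have hm : 0 < 49 + 46 * τ + 10 * τ ^ 2 := by positivity
  have hq : 0 < 1 + τ + τ ^ 2 := by positivity
  have hβ : 0 ≤ bd τ := by unfold bd; positivity
  have g := ratio_le hK hP
  rw [hdt] at g
  have e1 : bd τ * ((1 - τ) * e) =
      (1 - τ) * (1 + τ + τ ^ 2) / (49 + 46 * τ + 10 * τ ^ 2) / 6 * (108 * e) := by
    unfold bd
    field_simp
    ring
  have e2 : (1 - τ ^ 3) * (R / 6) =
      (1 - τ) * (1 + τ + τ ^ 2) / (49 + 46 * τ + 10 * τ ^ 2) / 6 *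
        ((49 + 46 * τ + 10 * τ ^ 2) * R) := by
    field_simp
    ring
  have hk : 0 < (1 - τ) * (1 + τ + τ ^ 2) / (49 + 46 * τ + 10 * τ ^ 2) / 6 := by positivity
  constructor
  · intro h
    refine le_trans (le_of_vol hd hv ?_) g
    rw [e1, e2]
    exact mul_le_mul_of_nonneg_left h hk.le
  · intro h
    refine lt_of_lt_of_le (lt_of_vol hβ hd hv ?_) g
    rw [e1, e2]
    exact mul_lt_mul_of_pos_left h hk

theorem norm_bound {τ : ℝ} (hτ : 0 ≤ τ) (hτ1 : τ < 1) {C K : Set V} (hK : IsCompact K)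
    (hc : Convex ℝ C) {P : Fin 3 → V} {r : V} (h : NF C P r) (hcons : Cons τ r K)
    (hvol : ∀ v, 0 ≤ v → ENNReal.ofReal v ≤ volume C →
      ENNReal.ofReal ((1 - τ ^ 3) * v) ≤ volume K)
    (h21 : r 2 ≤ r 1) (h10 : r 1 ≤ r 0) :
    ENNReal.ofReal (bd τ) ≤ deltaL K ∧ (0 < r 0 → ENNReal.ofReal (bd τ) < deltaL K) := by
  have hv := Pool.Agent.N707.CNVOL.t_VOL C hc h.zero h.unit P r h.r0 h.diag h.pos h.mem
  have r00 := h.r0 0
  have r10 := h.r0 1
  have r20 := h.r0 2
  have r01 := h.r1 0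
  have r11 := h.r1 1
  have r21 := h.r1 2
  have hv2 := hvol _ (by linarith) hv
  have hcon := Pool.Agent.N91.CN.t_CON P r h.sum h.abs h.diag h.r0 h.det h21 h10
  have hs := sum_le r00 r01 hcon
  have hτ1' : 0 < 1 - τ := by linarith
  have pA := eA_pos hτ h.r0 h.r1
  have pB := eB_pos hτ h.r0 h.r1
  have leA := eA_le hτ h.r0 hs
  have leB := eB_le hτ h.r0 h.r1
  have dtA : |dt ![uA τ r, vA τ r, qA τ r]| = (1 - τ) * eA τ r := by
    have h2 : dt ![uA τ r, vA τ r, qA τ r] = -((1 - τ) * eA τ r) := detA τ r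
    rw [h2, abs_neg, abs_of_pos (mul_pos hτ1' pA)]
  have dtB : |dt ![uB τ r, vB τ r, qB τ r]| = (1 - τ) * eB τ r := by
    have h2 : dt ![uB τ r, vB τ r, qB τ r] = -((1 - τ) * eB τ r) := detB τ r
    rw [h2, abs_neg, abs_of_pos (mul_pos hτ1' pB)]
  have nA : dt ![uA τ r, vA τ r, qA τ r] ≠ 0 := by
    intro h0
    rw [h0, abs_zero] at dtA
    exact (mul_pos hτ1' pA).ne dtA
  have nB : dt ![uB τ r, vB τ r, qB τ r] ≠ 0 := by
    intro h0
    rw [h0, abs_zero] at dtB
    exact (mul_pos hτ1' pB).ne dtB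
  have kA : Packs K ![uA τ r, vA τ r, qA τ r] :=
    packs_of h.r0 hcons _ nA (fun i j k hne => outA hτ hτ1.le r h.r0 h.r1 i j k hne)
  have kB : Packs K ![uB τ r, vB τ r, qB τ r] :=
    packs_of h.r0 hcons _ nB (fun i j k hne => outB hτ hτ1.le r h.r0 h.r1 h21 (h21.trans h10) i j k hne)
  have gA := one hτ hτ1 hK kA pA dtA hv2
  have gB := one hτ hτ1 hK kB pB dtB hv2
  have hstrict : 0 < r 0 → ENNReal.ofReal (bd τ) < deltaL K := by
    intro hr
    rcases Pool.Agent.N91.CN.t_INQ r r20 h21 h10 r01 hcon hr with hlt | hlt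
    · exact gA.2 (by linarith)
    · exact gB.2 (by linarith)
  refine ⟨?_, hstrict⟩
  rcases r00.eq_or_lt with h0 | h0
  · have z0 : r 0 = 0 := h0.symm
    have z1 : r 1 = 0 := le_antisymm (by linarith) r10
    have z2 : r 2 = 0 := le_antisymm (by linarith) r20
    have hdA : dA r = 49 / 108 := by
      unfold dA
      rw [z0, z1, z2]
      norm_num
    refine gA.1 ?_
    rw [hdA] at leA
    rw [z0, z1, z2] at leA ⊢
    linarith
  · exact (hstrict h0).le

/-- `K` is a truncated cone with ratio `τ` over a planar convex body -/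
def IsTC (τ : ℝ) (K : Set V) : Prop :=
  ∃ (a : V) (S : Set V) (f : V →ₗ[ℝ] ℝ) (c : ℝ), IsCompact S ∧ Convex ℝ S ∧ (∀ x ∈ S, f x = c) ∧
    f a ≠ c ∧ K = convexHull ℝ (S ∪ (fun x => a + τ • (x - a)) '' S) ∧ (interior K).Nonempty

theorem tc_main {τ : ℝ} (hτ : 0 ≤ τ) (hτ1 : τ < 1) {K : Set V} (hK : IsTC τ K) :
    ENNReal.ofReal (bd τ) ≤ deltaL K ∧ (deltaL K = 18 / 49 ↔
      ∃ p : Fin 4 → V, AffineIndependent ℝ p ∧ K = convexHull ℝ (Set.range p)) := by
  obtain ⟨a, S, f, c, hS, hSc, hf, ha, hKe, hint⟩ := hK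
  have hKT : K = TC τ a S := hKe
  have hne : S.Nonempty := by
    rw [Set.nonempty_iff_ne_empty]
    rintro rfl
    rw [hKe] at hint
    simp at hint
  have hintC : (interior (convexHull ℝ (insert a S))).Nonempty := by
    refine hint.mono (interior_mono ?_)
    rw [hKT]
    exact TC_subset hτ hτ1.le
  obtain ⟨L, t, P, r, hLt, hsum, hNF, htet⟩ := exists_nf hS hf ha hintC
  have hcptC := isCompact_cone (a := a) hS hSc
  have hcptK := isCompact_TC τ a hS hSc hne
  set σ : Equiv.Perm (Fin 3) := Tuple.sort (fun i => -r i) with hσ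
  have hmono := Tuple.monotone_sort (fun i => -r i)
  have h10 : r (σ 1) ≤ r (σ 0) := by
    have := hmono (show (0 : Fin 3) ≤ 1 by decide)
    simp only [Function.comp_apply, neg_le_neg_iff] at this
    exact this
  have h21 : r (σ 2) ≤ r (σ 1) := by
    have := hmono (show (1 : Fin 3) ≤ 2 by decide)
    simp only [Function.comp_apply, neg_le_neg_iff] at this
    exact this
  have hNF' := hNF.perm σ
  let M : V ≃ₗ[ℝ] V := L.trans (LinearEquiv.funCongrLeft ℝ ℝ σ)
  have hM : (fun x : V => (x ∘ σ : V)) '' ((fun x => L x + t) '' convexHull ℝ (insert a S))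
      = (fun x => M x + (t ∘ σ : V)) '' convexHull ℝ (insert a S) := by
    rw [Set.image_image]
    apply Set.image_congr
    intro x _
    funext n
    rfl
  rw [hM] at hNF'
  have hMa : M a + (t ∘ σ : V) = 0 := by
    funext n
    exact congrFun hLt (σ n)
  have hMsum : ∀ x ∈ S, (M x + (t ∘ σ : V)) 0 + (M x + (t ∘ σ : V)) 1 +
      (M x + (t ∘ σ : V)) 2 = 1 := by
    intro x hx
    have h1 := Equiv.sum_comp σ (L x + t)
    rw [Fin.sum_univ_three, Fin.sum_univ_three, hsum x hx] at h1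
    exact h1
  have hcont : Continuous (fun x : V => M x + (t ∘ σ : V)) :=
    (LinearMap.continuous_of_finiteDimensional (M : V →ₗ[ℝ] V)).add continuous_const
  have hcptK' : IsCompact ((fun x => M x + (t ∘ σ : V)) '' TC τ a S) := hcptK.image hcont
  have hconv' : Convex ℝ ((fun x => M x + (t ∘ σ : V)) '' convexHull ℝ (insert a S)) := by
    have h1 := ((convex_convexHull ℝ (insert a S)).linear_image (M : V →ₗ[ℝ] V)).translate
      (t ∘ σ : V)
    have h2 : (fun x => M x + (t ∘ σ : V)) '' convexHull ℝ (insert a S) =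
        (fun y => (t ∘ σ : V) + y) '' ((M : V →ₗ[ℝ] V) '' convexHull ℝ (insert a S)) := by
      rw [Set.image_image]
      apply Set.image_congr
      intro x _
      exact add_comm _ _
    rw [h2]
    exact h1
  have hcons := cons_TC hτ hτ1.le M (t ∘ σ : V) hMa hMsum hNF'
  obtain ⟨hle, hlt⟩ := norm_bound hτ hτ1 hcptK' hconv' hNF' hcons
    (fun v hv0 hv => vol_TC hτ hτ1 hS hSc hne M (t ∘ σ : V) hMa hv0 hv) h21 h10
  rw [deltaL_image hcptK, ← hKT] at hle hlt
  refine ⟨hle, ?_, ?_⟩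
  · intro heq
    have hτ0 : τ = 0 := by
      by_contra hne0
      have hpos : 0 < τ := lt_of_le_of_ne hτ (Ne.symm hne0)
      have h1 : 18 / 49 < deltaL K := by
        refine lt_of_lt_of_le ?_ hle
        rw [e1849]
        exact (ENNReal.ofReal_lt_ofReal_iff (lt_trans (by norm_num) (bd_gt hpos))).2 (bd_gt hpos)
      exact h1.ne heq.symm
    have hKC : K = convexHull ℝ (insert a S) := by
      rw [hKe, hτ0]
      have h1 : (fun x : V => a + (0 : ℝ) • (x - a)) '' S = {a} := by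
        simp only [zero_smul, add_zero]
        exact hne.image_const a
      rw [h1, Set.union_singleton]
    rw [hKC]
    apply htet
    have h0 : r (σ 0) = 0 := by
      have h1 : ¬ (0 < (r ∘ σ) 0) := by
        intro h2
        have h3 : 18 / 49 < deltaL K := by
          refine lt_of_le_of_lt ?_ (hlt h2)
          rw [e1849]
          exact ENNReal.ofReal_le_ofReal (bd_ge hτ)
        exact h3.ne heq.symm
      exact le_antisymm (not_lt.mp h1) (hNF.r0 _)
    intro n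
    have h1 : r (σ 1) = 0 := le_antisymm (by linarith) (hNF.r0 _)
    have h2 : r (σ 2) = 0 := le_antisymm (by linarith) (hNF.r0 _)
    have h3 : ∀ m, r (σ m) = 0 := by
      intro m
      fin_cases m
      · exact h0
      · exact h1
      · exact h2
    have := h3 (σ.symm n)
    rwa [Equiv.apply_symm_apply] at this
  · rintro ⟨p, hp, he⟩
    rw [he, deltaL_tetra p hp]

end Pool.Agent.J4.H72.FR
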