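import Pool.Agent.J4.H72.FR.Main

/-!
# Cones over planar convex bodies with a modified tip: the bound for `δ_L`
-/

set_option autoImplicit false

namespace Pool.Agent.J4.H72.FR

open MeasureTheory
open Pool.Agent.H349R2.Tet hiding V
open Pool.Agent.N334.CN (V NF isCompact_cone ratio_le e1849 dA dB)
open scoped ENNReal

/-- the bound -/
noncomputable def bd2 (s t : ℝ) : ℝ := 18 * (1 - t ^ 3) / ((1 - s) * (49 + 46 * s + 10 * s ^ 2))

theorem bd2_ge {s t : ℝ} (hs : 0 ≤ s) (hs1 : s < 1)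
    (h : 49 * t ^ 3 ≤ 3 * s + 36 * s ^ 2 + 10 * s ^ 3) : 18 / 49 ≤ bd2 s t := by
  have hm : 0 < 49 + 46 * s + 10 * s ^ 2 := by positivity
  have h1 : 0 < 1 - s := by linarith
  unfold bd2
  rw [div_le_div_iff₀ (by norm_num) (mul_pos h1 hm)]
  nlinarith

/-- one lattice -/
theorem one2 {s t : ℝ} (hs : 0 ≤ s) (hst : s ≤ t) (ht1 : t < 1) {K : Set V} (hK : IsCompact K)
    {b : Fin 3 → V} (hP : Packs K b) {e R : ℝ} (he : 0 < e) (hdt : |dt b| = (1 - s) * e)
    (hv : ENNReal.ofReal ((1 - t ^ 3) * (R / 6)) ≤ volume K) :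
    (108 * e ≤ (49 + 46 * s + 10 * s ^ 2) * R → ENNReal.ofReal (bd2 s t) ≤ deltaL K) ∧
    (108 * e < (49 + 46 * s + 10 * s ^ 2) * R → ENNReal.ofReal (bd2 s t) < deltaL K) := by
  have h1 : 0 < 1 - s := by linarith
  have ht3 : 0 < 1 - t ^ 3 := by
    have : t ^ 3 < 1 := pow_lt_one₀ (hs.trans hst) ht1 (by norm_num)
    linarith
  have hd : 0 < (1 - s) * e := mul_pos h1 he
  have hm : 0 < 49 + 46 * s + 10 * s ^ 2 := by positivity
  have hβ : 0 ≤ bd2 s t := by unfold bd2; positivity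
  have g := ratio_le hK hP
  rw [hdt] at g
  have e1 : bd2 s t * ((1 - s) * e) =
      (1 - t ^ 3) / (49 + 46 * s + 10 * s ^ 2) / 6 * (108 * e) := by
    unfold bd2
    field_simp
    ring
  have e2 : (1 - t ^ 3) * (R / 6) = (1 - t ^ 3) / (49 + 46 * s + 10 * s ^ 2) / 6 *
      ((49 + 46 * s + 10 * s ^ 2) * R) := by
    field_simp
  have hk : 0 < (1 - t ^ 3) / (49 + 46 * s + 10 * s ^ 2) / 6 := by positivity
  constructor
  · intro h
    refine le_trans (le_of_vol hd hv ?_) g
    rw [e1, e2]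
    exact mul_le_mul_of_nonneg_left h hk.le
  · intro h
    refine lt_of_lt_of_le (lt_of_vol hβ hd hv ?_) g
    rw [e1, e2]
    exact mul_lt_mul_of_pos_left h hk

theorem norm_bound2 {s t : ℝ} (hs : 0 ≤ s) (hst : s ≤ t) (ht1 : t < 1) {C K : Set V}
    (hK : IsCompact K) (hc : Convex ℝ C) {P : Fin 3 → V} {r : V} (h : NF C P r)
    (hcons : Cons s r K)
    (hvol : ∀ v, 0 ≤ v → ENNReal.ofReal v ≤ volume C →
      ENNReal.ofReal ((1 - t ^ 3) * v) ≤ volume K)
    (h21 : r 2 ≤ r 1) (h10 : r 1 ≤ r 0) :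
    ENNReal.ofReal (bd2 s t) ≤ deltaL K ∧
      (0 < r 0 ∨ 0 < s → ENNReal.ofReal (bd2 s t) < deltaL K) := by
  have hv := Pool.Agent.N707.CNVOL.t_VOL C hc h.zero h.unit P r h.r0 h.diag h.pos h.mem
  have r00 := h.r0 0
  have r10 := h.r0 1
  have r20 := h.r0 2
  have r01 := h.r1 0
  have r11 := h.r1 1
  have r21 := h.r1 2
  have hv2 := hvol _ (by linarith) hv
  have hcon := Pool.Agent.N91.CN.t_CON P r h.sum h.abs h.diag h.r0 h.det h21 h10
  have hsl := sum_le r00 r01 hcon
  have hs1 : s < 1 := lt_of_le_of_lt hst ht1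
  have hs1' : 0 < 1 - s := by linarith
  have pA := eA_pos hs h.r0 h.r1
  have pB := eB_pos hs h.r0 h.r1
  have leA := eA_le hs h.r0 hsl
  have leB := eB_le hs h.r0 h.r1
  have dtA : |dt ![uA s r, vA s r, qA s r]| = (1 - s) * eA s r := by
    have h2 : dt ![uA s r, vA s r, qA s r] = -((1 - s) * eA s r) := detA s r
    rw [h2, abs_neg, abs_of_pos (mul_pos hs1' pA)]
  have dtB : |dt ![uB s r, vB s r, qB s r]| = (1 - s) * eB s r := by
    have h2 : dt ![uB s r, vB s r, qB s r] = -((1 - s) * eB s r) := detB s r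
    rw [h2, abs_neg, abs_of_pos (mul_pos hs1' pB)]
  have nA : dt ![uA s r, vA s r, qA s r] ≠ 0 := by
    intro h0
    rw [h0, abs_zero] at dtA
    exact (mul_pos hs1' pA).ne dtA
  have nB : dt ![uB s r, vB s r, qB s r] ≠ 0 := by
    intro h0
    rw [h0, abs_zero] at dtB
    exact (mul_pos hs1' pB).ne dtB
  have kA : Packs K ![uA s r, vA s r, qA s r] :=
    packs_of h.r0 hcons _ nA (fun i j k hne => outA hs hs1.le r h.r0 h.r1 i j k hne)
  have kB : Packs K ![uB s r, vB s r, qB s r] :=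
    packs_of h.r0 hcons _ nB
      (fun i j k hne => outB hs hs1.le r h.r0 h.r1 h21 (h21.trans h10) i j k hne)
  have gA := one2 hs hst ht1 hK kA pA dtA hv2
  have gB := one2 hs hst ht1 hK kB pB dtB hv2
  have hstrict : 0 < r 0 → ENNReal.ofReal (bd2 s t) < deltaL K := by
    intro hr
    rcases Pool.Agent.N91.CN.t_INQ r r20 h21 h10 r01 hcon hr with hlt | hlt
    · exact gA.2 (by linarith)
    · exact gB.2 (by linarith)
  rcases r00.eq_or_lt with h0 | h0
  · have z0 : r 0 = 0 := h0.symm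
    have z1 : r 1 = 0 := le_antisymm (by linarith) r10
    have z2 : r 2 = 0 := le_antisymm (by linarith) r20
    have hE : 108 * eA s r = 49 + 28 * s + 4 * s ^ 2 := by
      unfold eA dA
      rw [z0, z1, z2]
      ring
    refine ⟨gA.1 ?_, ?_⟩
    · rw [hE, z0, z1, z2]
      nlinarith [sq_nonneg s]
    · rintro (h1 | h1)
      · exact hstrict h1
      · refine gA.2 ?_
        rw [hE, z0, z1, z2]
        nlinarith [sq_nonneg s]
  · exact ⟨(hstrict h0).le, fun _ => hstrict h0⟩

/-- `K` is a convex body which lies between two truncated cones with the same base and the same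
apex: `K` contains `S` and its homothetic copy with ratio `t`, and is contained in the convex hull
of `S` and its homothetic copy with ratio `s` -/
def IsBtw (s t : ℝ) (K : Set V) : Prop :=
  ∃ (a : V) (S : Set V) (f : V →ₗ[ℝ] ℝ) (c : ℝ), IsCompact S ∧ Convex ℝ S ∧ (∀ x ∈ S, f x = c) ∧
    f a ≠ c ∧ IsCompact K ∧ Convex ℝ K ∧ (interior K).Nonempty ∧ S ⊆ K ∧
    (fun x => a + t • (x - a)) '' S ⊆ K ∧
    K ⊆ convexHull ℝ (S ∪ (fun x => a + s • (x - a)) '' S)

theorem btw_main {s t : ℝ} (hs : 0 ≤ s) (hst : s ≤ t) (ht1 : t < 1) {K : Set V}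
    (hK : IsBtw s t K) :
    ENNReal.ofReal (bd2 s t) ≤ deltaL K ∧
    (49 * t ^ 3 ≤ 3 * s + 36 * s ^ 2 + 10 * s ^ 3 → 18 / 49 ≤ deltaL K ∧ (deltaL K = 18 / 49 ↔
      ∃ p : Fin 4 → V, AffineIndependent ℝ p ∧ K = convexHull ℝ (Set.range p))) := by
  obtain ⟨a, S, f, c, hS, hSc, hf, ha, hKc, hKconv, hint, hSK, hhK, hKs⟩ := hK
  have hs1 : s < 1 := lt_of_le_of_lt hst ht1
  have ht0 : 0 ≤ t := hs.trans hst
  have hKT : K ⊆ TC s a S := hKs
  have hTK : TC t a S ⊆ K := convexHull_min (Set.union_subset hSK hhK) hKconv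
  have hne : S.Nonempty := by
    rw [Set.nonempty_iff_ne_empty]
    rintro rfl
    have h1 : K ⊆ ∅ := by simpa using hKs
    rw [Set.subset_empty_iff.1 h1] at hint
    simp at hint
  have hKC : K ⊆ convexHull ℝ (insert a S) := hKT.trans (TC_subset hs hs1.le)
  have hintC : (interior (convexHull ℝ (insert a S))).Nonempty := hint.mono (interior_mono hKC)
  obtain ⟨L, u, P, r, hLt, hsum, hNF, htet⟩ := exists_nf hS hf ha hintC
  set σ : Equiv.Perm (Fin 3) := Tuple.sort (fun i => -r i) with hσ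
  have hmono := Tuple.monotone_sort (fun i => -r i)
  have h10 : r (σ 1) ≤ r (σ 0) := by
    have := hmono (show (0 : Fin 3) ≤ 1 by decide)
    simp only [Function.comp_apply, neg_le_neg_iff] at this
    exact this
  have h21 : r (σ 2) ≤ r (σ 1) := by
    have := hmono (show (1 : Fin 3) ≤ 2 by decide)
    simp only [Function.comp_apply, neg_le_neg_iff] at this
    exact this
  have hNF' := hNF.perm σ
  let M : V ≃ₗ[ℝ] V := L.trans (LinearEquiv.funCongrLeft ℝ ℝ σ)
  have hM : (fun x : V => (x ∘ σ : V)) '' ((fun x => L x + u) '' convexHull ℝ (insert a S))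
      = (fun x => M x + (u ∘ σ : V)) '' convexHull ℝ (insert a S) := by
    rw [Set.image_image]
    apply Set.image_congr
    intro x _
    funext n
    rfl
  rw [hM] at hNF'
  have hMa : M a + (u ∘ σ : V) = 0 := by
    funext n
    exact congrFun hLt (σ n)
  have hMsum : ∀ x ∈ S, (M x + (u ∘ σ : V)) 0 + (M x + (u ∘ σ : V)) 1 +
      (M x + (u ∘ σ : V)) 2 = 1 := by
    intro x hx
    have h1 := Equiv.sum_comp σ (L x + u)
    rw [Fin.sum_univ_three, Fin.sum_univ_three, hsum x hx] at h1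
    exact h1
  have hcont : Continuous (fun x : V => M x + (u ∘ σ : V)) :=
    (LinearMap.continuous_of_finiteDimensional (M : V →ₗ[ℝ] V)).add continuous_const
  have hcptK' : IsCompact ((fun x => M x + (u ∘ σ : V)) '' K) := hKc.image hcont
  have hconv' : Convex ℝ ((fun x => M x + (u ∘ σ : V)) '' convexHull ℝ (insert a S)) := by
    have h1 := ((convex_convexHull ℝ (insert a S)).linear_image (M : V →ₗ[ℝ] V)).translate
      (u ∘ σ : V)
    have h2 : (fun x => M x + (u ∘ σ : V)) '' convexHull ℝ (insert a S) =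
        (fun y => (u ∘ σ : V) + y) '' ((M : V →ₗ[ℝ] V) '' convexHull ℝ (insert a S)) := by
      rw [Set.image_image]
      apply Set.image_congr
      intro x _
      exact add_comm _ _
    rw [h2]
    exact h1
  have hcons : Cons s (r ∘ σ) ((fun x => M x + (u ∘ σ : V)) '' K) := by
    rintro _ ⟨x, hx, rfl⟩
    exact cons_TC hs hs1.le M (u ∘ σ : V) hMa hMsum hNF' _ ⟨x, hKT hx, rfl⟩
  obtain ⟨hle, hlt⟩ := norm_bound2 hs hst ht1 hcptK' hconv' hNF' hcons
    (fun v hv0 hv => (vol_TC ht0 ht1 hS hSc hne M (u ∘ σ : V) hMa hv0 hv).trans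
      (measure_mono (Set.image_mono hTK))) h21 h10
  rw [deltaL_image hKc] at hle hlt
  refine ⟨hle, fun h49 => ?_⟩
  have hge : 18 / 49 ≤ ENNReal.ofReal (bd2 s t) := by
    rw [e1849]
    exact ENNReal.ofReal_le_ofReal (bd2_ge hs hs1 h49)
  refine ⟨hge.trans hle, ?_, ?_⟩
  · intro heq
    have hs0 : s = 0 := by
      by_contra hne0
      have hpos : 0 < s := lt_of_le_of_ne hs (Ne.symm hne0)
      exact (hge.trans_lt (hlt (Or.inr hpos))).ne heq.symm
    have ht00 : t = 0 := by
      rw [hs0] at h49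
      have h1 : t ^ 3 ≤ 0 := by linarith
      by_contra hne0
      have hpos : 0 < t := lt_of_le_of_ne ht0 (Ne.symm hne0)
      have := pow_pos hpos 3
      linarith
    have hTC0 : TC 0 a S = convexHull ℝ (insert a S) := by
      have h1 : hm 0 a '' S = {a} := by
        have h2 : hm 0 a = fun _ => a := by
          funext x
          simp [hm]
        rw [h2]
        exact hne.image_const a
      unfold TC
      rw [h1, Set.union_singleton]
    have hKC : K = convexHull ℝ (insert a S) := by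
      apply Set.Subset.antisymm hKC
      rw [← hTC0, ← ht00]
      exact hTK
    rw [hKC]
    apply htet
    have h0 : r (σ 0) = 0 := by
      have h1 : ¬ (0 < (r ∘ σ) 0) := by
        intro h2
        exact (hge.trans_lt (hlt (Or.inl h2))).ne heq.symm
      exact le_antisymm (not_lt.mp h1) (hNF.r0 _)
    intro n
    have h1 : r (σ 1) = 0 := le_antisymm (by linarith) (hNF.r0 _)
    have h2 : r (σ 2) = 0 := le_antisymm (by linarith) (hNF.r0 _)
    have h3 : ∀ m, r (σ m) = 0 := by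
      intro m
      fin_cases m
      · exact h0
      · exact h1
      · exact h2
    have := h3 (σ.symm n)
    rwa [Equiv.apply_symm_apply] at this
  · rintro ⟨p, hp, he⟩
    rw [he, deltaL_tetra p hp]

end Pool.Agent.J4.H72.FR
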