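import Pool.Agent.N334.CN.Nf

/-!
# Normal form of a cone over a planar convex body, with the apex and the height of the base
-/

set_option autoImplicit false

namespace Pool.Agent.J4.H72.FR

open MeasureTheory
open Pool.Agent.H349R2.Tet hiding V
open Pool.Agent.N334.CN (V NF exists_max pos_gen convex_coneSet)

theorem exists_nf {a : V} {S : Set V} {f : V →ₗ[ℝ] ℝ} {c : ℝ} (hS : IsCompact S)
    (hf : ∀ x ∈ S, f x = c) (ha : f a ≠ c)
    (hint : (interior (convexHull ℝ (insert a S))).Nonempty) :
    ∃ (L : V ≃ₗ[ℝ] V) (t : V) (P : Fin 3 → V) (r : V), L a + t = 0 ∧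
      (∀ x ∈ S, (L x + t) 0 + (L x + t) 1 + (L x + t) 2 = 1) ∧
      NF ((fun x => L x + t) '' convexHull ℝ (insert a S)) P r ∧
      ((∀ n, r n = 0) → ∃ p : Fin 4 → V, AffineIndependent ℝ p ∧
        convexHull ℝ (insert a S) = convexHull ℝ (Set.range p)) := by
  classical
  obtain ⟨v, hvS, hD, hmax⟩ := exists_max hS hint
  have hli : LinearIndependent ℝ (fun i => v i - a) := (dt_ne_zero_iff _).mp hD
  have hcard : Fintype.card (Fin 3) = Module.finrank ℝ V := by simp
  set B := basisOfLinearIndependentOfCardEqFinrank hli hcard with hB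
  have hBi : ∀ i, B i = v i - a := by intro i; simp [hB]
  obtain ⟨L, hL⟩ : ∃ L : V ≃ₗ[ℝ] V, L = B.equivFun := ⟨_, rfl⟩
  have hrep : ∀ x : V, ∑ i, L x i • (v i - a) = x := by
    intro x
    have := B.sum_equivFun x
    simp only [hBi] at this
    rw [hL]
    exact this
  have hLv : ∀ i, L (v i - a) = Pi.single i 1 := by
    intro i
    funext j
    rw [← hBi i, hL, Module.Basis.equivFun_self, Pi.single_apply]
    simp only [eq_comm]
  have hsum : ∀ x ∈ S, L (x - a) 0 + L (x - a) 1 + L (x - a) 2 = 1 := by
    intro x hx
    have h1 : f (∑ i, L (x - a) i • (v i - a)) = f (x - a) := congrArg f (hrep (x - a))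
    rw [Fin.sum_univ_three, f.map_add, f.map_add, f.map_smul, f.map_smul, f.map_smul,
      f.map_sub (v 0) a, f.map_sub (v 1) a, f.map_sub (v 2) a, f.map_sub x a, hf _ (hvS 0),
      hf _ (hvS 1), hf _ (hvS 2), hf x hx, smul_eq_mul, smul_eq_mul, smul_eq_mul] at h1
    have h2 : c - f a ≠ 0 := sub_ne_zero.mpr (Ne.symm ha)
    have h3 : (c - f a) * (L (x - a) 0 + L (x - a) 1 + L (x - a) 2) = (c - f a) * 1 := by
      linear_combination h1
    exact mul_left_cancel₀ h2 h3
  have hdet : ∀ w : Fin 3 → V, (∀ i, w i ∈ S) → |Matrix.det (fun i => L (w i - a))| ≤ 1 := by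
    intro w hw
    have h1 : Matrix.of (fun i => w i - a) =
        Matrix.of (fun i => L (w i - a)) * Matrix.of (fun i => v i - a) := by
      ext i k
      rw [Matrix.mul_apply, Matrix.of_apply]
      have := congrFun (hrep (w i - a)) k
      rw [← this]
      simp only [Finset.sum_apply, Pi.smul_apply, smul_eq_mul, Matrix.of_apply]
    have h2 := hmax w hw
    unfold dt at h2 hD
    rw [h1, Matrix.det_mul, abs_mul] at h2
    have h3 : 0 < |(Matrix.of fun i => v i - a).det| := abs_pos.mpr hD
    have h4 : |(Matrix.of fun i => L (w i - a)).det| ≤ 1 := by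
      by_contra h5
      push Not at h5
      nlinarith
    exact h4
  have hne : S.Nonempty := ⟨v 0, hvS 0⟩
  have habs : ∀ x ∈ S, ∀ n, |L (x - a) n| ≤ 1 := by
    intro x hx n
    have h1 := hdet (Function.update v n x) (by
      intro i
      by_cases hi : i = n
      · subst hi; simpa using hx
      · simpa [Function.update_of_ne hi] using hvS i)
    have h2 : Matrix.det (fun i => L (Function.update v n x i - a)) = L (x - a) n := by
      fin_cases n
      · rw [Matrix.det_fin_three]
        simp [Function.update, hLv, Pi.single_apply]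
      · rw [Matrix.det_fin_three]
        simp [Function.update, hLv, Pi.single_apply]
      · rw [Matrix.det_fin_three]
        simp [Function.update, hLv, Pi.single_apply]
    rwa [h2] at h1
  have hcont : ∀ n : Fin 3, Continuous (fun x : V => L (x - a) n) := by
    intro n
    have h1 : Continuous (fun x : V => L x) :=
      LinearMap.continuous_of_finiteDimensional (L : V →ₗ[ℝ] V)
    exact (continuous_apply n).comp (h1.comp (continuous_id.sub continuous_const))
  choose w hwS hwmin using fun n : Fin 3 => hS.exists_isMinOn hne (hcont n).continuousOn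
  have hmin : ∀ n, ∀ x ∈ S, L (w n - a) n ≤ L (x - a) n := fun n x hx => hwmin n hx
  have hmem : ∀ x ∈ S, L (x - a) ∈ (fun x => L x + -(L a)) '' convexHull ℝ (insert a S) := by
    intro x hx
    refine ⟨x, subset_convexHull ℝ _ (Set.mem_insert_of_mem _ hx), ?_⟩
    simp only [map_sub]
    abel
  have hr0 : ∀ n, L (w n - a) n ≤ 0 := by
    intro n
    have h1 : ∃ m : Fin 3, m ≠ n := exists_ne n
    obtain ⟨m, hm⟩ := h1
    have h2 := hmin n (v m) (hvS m)
    rw [hLv m, Pi.single_apply, if_neg (Ne.symm hm)] at h2
    exact h2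
  refine ⟨L, -(L a), fun n => L (w n - a), fun n => -(L (w n - a) n), add_neg_cancel _, ?_, ?_, ?_⟩
  · intro x hx
    have e1 : L x + -(L a) = L (x - a) := by rw [map_sub]; abel
    rw [e1]
    exact hsum x hx
  · refine
      { r0 := fun n => by have := hr0 n; linarith
        r1 := fun n => by
          have := (abs_le.mp (habs _ (hwS n) n)).1
          linarith
        mem := fun n => hmem _ (hwS n)
        unit := fun n => by rw [← hLv n]; exact hmem _ (hvS n)
        sum := fun n => hsum _ (hwS n)
        abs := fun n m => habs _ (hwS n) m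
        diag := fun n => by ring
        pos := ?_
        det := hdet w hwS
        cone := ?_
        zero := ⟨a, subset_convexHull ℝ _ (Set.mem_insert _ _), by simp⟩ }
    · intro n m hmn
      exact pos_gen (L (w n - a)) n m hmn (hsum _ (hwS n)) (hr0 n)
        (fun k => (abs_le.mp (habs _ (hwS n) k)).2)
    · rintro _ ⟨x, hx, rfl⟩
      have hC := convexHull_min (s := insert a S) ?_
        (convex_coneSet L (-(L a)) (fun n => -(L (w n - a) n))) hx
      · exact hC
      · rintro y (rfl | hy)
        · simp
        · have e1 : L y + -(L a) = L (y - a) := by rw [map_sub]; abel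
          show 0 ≤ (L y + -(L a)) 0 + (L y + -(L a)) 1 + (L y + -(L a)) 2 ∧
            (L y + -(L a)) 0 + (L y + -(L a)) 1 + (L y + -(L a)) 2 ≤ 1 ∧
            ∀ n, -((-(L (w n - a) n)) * ((L y + -(L a)) 0 + (L y + -(L a)) 1 + (L y + -(L a)) 2))
              ≤ (L y + -(L a)) n ∧
              (L y + -(L a)) n ≤ (L y + -(L a)) 0 + (L y + -(L a)) 1 + (L y + -(L a)) 2
          rw [e1, hsum y hy]
          refine ⟨zero_le_one, le_rfl, fun n => ⟨?_, ?_⟩⟩
          · have := hmin n y hy
            linarith
          · exact (abs_le.mp (habs y hy n)).2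
  · intro hr
    have hnn : ∀ x ∈ S, ∀ n, 0 ≤ L (x - a) n := by
      intro x hx n
      have h1 := hmin n x hx
      have h2 := hr n
      simp only [neg_eq_zero] at h2
      linarith
    refine ⟨Fin.cons a v, ?_, ?_⟩
    · rw [affineIndependent_iff_linearIndependent_vsub ℝ _ (0 : Fin 4)]
      rw [← linearIndependent_equiv (finSuccAboveEquiv (0 : Fin 4))]
      have e1 : (fun i : {x : Fin 4 // x ≠ 0} => (Fin.cons a v : Fin 4 → V) i -ᵥ
          (Fin.cons a v : Fin 4 → V) 0) ∘ (finSuccAboveEquiv (0 : Fin 4))
          = fun i => v i - a := by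
        funext i
        simp [finSuccAboveEquiv]
      rw [e1]
      exact hli
    · apply Set.Subset.antisymm
      · apply convexHull_min _ (convex_convexHull ℝ _)
        rintro x (rfl | hx)
        · exact subset_convexHull ℝ _ ⟨0, rfl⟩
        · have h1 := hrep (x - a)
          have h2 := hsum x hx
          have h3 : x = ∑ i, L (x - a) i • v i := by
            have h4 : ∑ i, L (x - a) i • v i = ∑ i, L (x - a) i • (v i - a) +
                (L (x - a) 0 + L (x - a) 1 + L (x - a) 2) • a := by
              simp only [Fin.sum_univ_three, smul_sub, add_smul]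
              abel
            rw [h4, h1, h2, one_smul]
            abel
          rw [h3]
          refine (convex_convexHull ℝ _).sum_mem (fun i _ => hnn x hx i) ?_
            (fun i _ => subset_convexHull ℝ _ ⟨i.succ, by simp⟩)
          rw [Fin.sum_univ_three]
          exact h2
      · apply convexHull_mono
        rintro _ ⟨i, rfl⟩
        refine Fin.cases ?_ (fun j => ?_) i
        · exact Set.mem_insert _ _
        · exact Set.mem_insert_of_mem _ (by simpa using hvS j)

end Pool.Agent.J4.H72.FR
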