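import Pool.Agent.N334.CN.Stm

/-!
# Truncated cones: separation of translates
-/

set_option autoImplicit false

namespace Pool.Agent.J4.H72.FR

open Pool.Agent.N334.CN (V)

/-- the vector `D` with `t = - (D 0 + D 1 + D 2) ≥ 0` satisfies one of seven inequalities -/
def SepT (τ : ℝ) (r D : V) : Prop :=
  0 ≤ -(D 0 + D 1 + D 2) ∧ (1 - τ ≤ -(D 0 + D 1 + D 2) ∨
    ∃ n : Fin 3, 1 + r n ≤ D n + -(D 0 + D 1 + D 2) ∨ 1 + r n ≤ -D n + r n * -(D 0 + D 1 + D 2))

def OutT (τ : ℝ) (r D : V) : Prop := SepT τ r D ∨ SepT τ r (-D)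

theorem int_lt {K : Set V} (hK : ∀ x ∈ K, x 0 + x 1 + x 2 ≤ 1) {u : V} (hu : u ∈ interior K) :
    u 0 + u 1 + u 2 < 1 := by
  have hc : Continuous (fun ε : ℝ => u + ε • (1 : V)) := by fun_prop
  have hnhds : interior K ∈ nhds ((fun ε : ℝ => u + ε • (1 : V)) 0) := by
    simpa using isOpen_interior.mem_nhds hu
  have hev := (hc.tendsto 0).eventually hnhds
  obtain ⟨δ, hδ, hball⟩ := Metric.eventually_nhds_iff.1 hev
  have h1 := hball (y := δ / 2) (by rw [Real.dist_eq, sub_zero, abs_of_pos (by linarith)]; linarith)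
  have h2 := hK _ (interior_subset h1)
  simp at h2
  linarith

/-- the constraints satisfied by a truncated cone in normal form -/
def Cons (τ : ℝ) (r : V) (K : Set V) : Prop :=
  ∀ x ∈ K, τ ≤ x 0 + x 1 + x 2 ∧ x 0 + x 1 + x 2 ≤ 1 ∧
    ∀ n, -(r n * (x 0 + x 1 + x 2)) ≤ x n ∧ x n ≤ x 0 + x 1 + x 2

theorem key {τ : ℝ} {K : Set V} {r : V} (hr : ∀ n, 0 ≤ r n) (hK : Cons τ r K)
    {u v D : V} (hu : u ∈ interior K) (hv : v ∈ K) (hD : v = u + D) (hS : SepT τ r D) : False := by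
  have h1 := int_lt (fun x hx => (hK x hx).2.1) hu
  obtain ⟨ht, hc⟩ := hS
  have hv0 : ∀ n, v n = u n + D n := fun n => by rw [hD]; rfl
  obtain ⟨v1, v2, v3⟩ := hK v hv
  obtain ⟨u1, u2, u3⟩ := hK u (interior_subset hu)
  have hsum : v 0 + v 1 + v 2 = u 0 + u 1 + u 2 + (D 0 + D 1 + D 2) := by
    rw [hv0 0, hv0 1, hv0 2]; ring
  rcases hc with hc | ⟨n, hc | hc⟩
  · linarith
  · have a1 := (v3 n).2
    have a2 := (u3 n).1
    have a3 := hv0 n
    have a4 : r n * (u 0 + u 1 + u 2) ≤ r n * 1 := mul_le_mul_of_nonneg_left u2 (hr n)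
    linarith
  · have a1 := (v3 n).1
    have a2 := (u3 n).2
    have a3 := hv0 n
    rw [hsum] at a1
    have a4 : r n * (u 0 + u 1 + u 2) ≤ r n * 1 := mul_le_mul_of_nonneg_left u2 (hr n)
    nlinarith

theorem dis {τ : ℝ} (K : Set V) (r : V) (hr : ∀ n, 0 ≤ r n) (hK : Cons τ r K) (D : V)
    (hD : OutT τ r D) : Disjoint (interior K) (interior ((fun x => x + D) '' K)) := by
  rw [Set.disjoint_left]
  intro z hz hz'
  have him : (fun x : V => x + D) '' K = (Homeomorph.addRight D) '' K := rfl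
  rw [him, ← Homeomorph.image_interior] at hz'
  obtain ⟨y, hy, hyz⟩ := hz'
  have hyz' : z = y + D := hyz.symm
  rcases hD with h | h
  · exact key hr hK hy (interior_subset hz) hyz' h
  · refine key hr hK hz (interior_subset hy) ?_ h
    rw [hyz']; abel

end Pool.Agent.J4.H72.FR
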