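import Pool.Agent.J4.H72.FR.Nf
import Pool.Agent.J4.H72.FR.Sep
import Pool.Agent.N334.CN.Asm

/-!
# Truncated cones: compactness, position in the cone, volume
-/

set_option autoImplicit false

namespace Pool.Agent.J4.H72.FR

open MeasureTheory
open Pool.Agent.N334.CN (V NF isCompact_cone)
open scoped ENNReal Pointwise

/-- the homothety with centre `a` and ratio `τ` -/
noncomputable def hm (τ : ℝ) (a x : V) : V := a + τ • (x - a)

/-- the truncated cone -/
noncomputable def TC (τ : ℝ) (a : V) (S : Set V) : Set V := convexHull ℝ (S ∪ hm τ a '' S)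

theorem mem_cone {a : V} {S : Set V} (hc : Convex ℝ S) (hne : S.Nonempty) {x : V}
    (hx : x ∈ convexHull ℝ (insert a S)) :
    ∃ y ∈ S, ∃ θ ∈ Set.Icc (0 : ℝ) 1, x = a + θ • (y - a) := by
  rw [convexHull_insert hne, hc.convexHull_eq, convexJoin_singleton_left] at hx
  simp only [Set.mem_iUnion, segment_eq_image, Set.mem_image] at hx
  obtain ⟨y, hy, θ, hθ, rfl⟩ := hx
  exact ⟨y, hy, θ, hθ, by simp only [smul_sub, sub_smul, one_smul]; abel⟩

theorem cone_mem {a : V} {S : Set V} {y : V} (hy : y ∈ S) {θ : ℝ} (h0 : 0 ≤ θ) (h1 : θ ≤ 1) :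
    a + θ • (y - a) ∈ convexHull ℝ (insert a S) := by
  have h2 := (convex_convexHull ℝ (insert a S))
    (subset_convexHull ℝ _ (Set.mem_insert a S))
    (subset_convexHull ℝ _ (Set.mem_insert_of_mem a hy)) (sub_nonneg.2 h1) h0 (by ring)
  have e : (1 - θ) • a + θ • y = a + θ • (y - a) := by
    simp only [smul_sub, sub_smul, one_smul]; abel
  rwa [e] at h2

theorem cone_subset {τ : ℝ} (h0 : 0 ≤ τ) (h1 : τ < 1) {a : V} {S : Set V} (hc : Convex ℝ S)
    (hne : S.Nonempty) :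
    convexHull ℝ (insert a S) ⊆ TC τ a S ∪ hm τ a '' convexHull ℝ (insert a S) := by
  intro x hx
  obtain ⟨y, hy, θ, ⟨hθ0, hθ1⟩, rfl⟩ := mem_cone hc hne hx
  rcases le_or_gt τ θ with h | h
  · left
    have h2 : y ∈ TC τ a S := subset_convexHull ℝ _ (Or.inl hy)
    have h3 : hm τ a y ∈ TC τ a S := subset_convexHull ℝ _ (Or.inr ⟨y, hy, rfl⟩)
    have hd : 0 < 1 - τ := by linarith
    have h4 := (convex_convexHull ℝ (S ∪ hm τ a '' S)) h2 h3
      (div_nonneg (sub_nonneg.2 h) hd.le) (div_nonneg (sub_nonneg.2 hθ1) hd.le)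
      (by field_simp; ring)
    have e : ((θ - τ) / (1 - τ)) • y + ((1 - θ) / (1 - τ)) • hm τ a y = a + θ • (y - a) := by
      ext i
      simp only [hm, Pi.add_apply, Pi.smul_apply, Pi.sub_apply, smul_eq_mul]
      field_simp
      ring
    rw [e] at h4
    exact h4
  · right
    have hτ : 0 < τ := lt_of_le_of_lt hθ0 h
    refine ⟨a + (θ / τ) • (y - a), cone_mem hy (div_nonneg hθ0 h0)
      ((div_le_one hτ).2 h.le), ?_⟩
    ext i
    simp only [hm, Pi.add_apply, Pi.smul_apply, Pi.sub_apply, smul_eq_mul]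
    field_simp
    ring

theorem TC_subset {τ : ℝ} (h0 : 0 ≤ τ) (h1 : τ ≤ 1) {a : V} {S : Set V} :
    TC τ a S ⊆ convexHull ℝ (insert a S) := by
  apply convexHull_min _ (convex_convexHull ℝ _)
  rintro _ (hy | ⟨y, hy, rfl⟩)
  · exact subset_convexHull ℝ _ (Set.mem_insert_of_mem a hy)
  · exact cone_mem hy h0 h1

theorem continuous_hm (τ : ℝ) (a : V) : Continuous (hm τ a) := by
  unfold hm
  fun_prop

theorem convex_hm (τ : ℝ) (a : V) {S : Set V} (hc : Convex ℝ S) : Convex ℝ (hm τ a '' S) := by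
  rintro _ ⟨x, hx, rfl⟩ _ ⟨y, hy, rfl⟩ p q hp hq hpq
  refine ⟨p • x + q • y, hc hx hy hp hq hpq, ?_⟩
  ext i
  simp only [hm, Pi.add_apply, Pi.smul_apply, Pi.sub_apply, smul_eq_mul]
  have : q = 1 - p := by linarith
  rw [this]
  ring

theorem isCompact_TC (τ : ℝ) (a : V) {S : Set V} (hS : IsCompact S) (hc : Convex ℝ S)
    (hne : S.Nonempty) : IsCompact (TC τ a S) := by
  unfold TC
  rw [hc.convexHull_union (convex_hm τ a hc) hne (hne.image _)]
  have h1 : convexJoin ℝ S (hm τ a '' S) =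
      (fun p : ℝ × V × V => (1 - p.1) • p.2.1 + p.1 • p.2.2) ''
        (Set.Icc 0 1 ×ˢ S ×ˢ (hm τ a '' S)) := by
    ext x
    simp only [convexJoin, Set.mem_iUnion, segment_eq_image, Set.mem_image, Set.mem_prod,
      Prod.exists]
    constructor
    · rintro ⟨y, hy, z, hz, θ, hθ, rfl⟩
      exact ⟨θ, y, z, ⟨hθ, hy, hz⟩, rfl⟩
    · rintro ⟨θ, y, z, ⟨hθ, hy, hz⟩, rfl⟩
      exact ⟨y, hy, z, hz, θ, hθ, rfl⟩
  rw [h1]
  apply (isCompact_Icc.prod (hS.prod (hS.image (continuous_hm τ a)))).image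
  fun_prop

/-- volume of the affine image of a truncated cone -/
theorem vol_TC {τ : ℝ} (h0 : 0 ≤ τ) (h1 : τ < 1) {a : V} {S : Set V} (hS : IsCompact S)
    (hc : Convex ℝ S) (hne : S.Nonempty) (L : V ≃ₗ[ℝ] V) (t : V) (hLt : L a + t = 0) {v : ℝ}
    (hv0 : 0 ≤ v)
    (hv : ENNReal.ofReal v ≤ volume ((fun x => L x + t) '' convexHull ℝ (insert a S))) :
    ENNReal.ofReal ((1 - τ ^ 3) * v) ≤ volume ((fun x => L x + t) '' TC τ a S) := by
  have hcont : Continuous (fun x : V => L x + t) :=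
    (LinearMap.continuous_of_finiteDimensional (L : V →ₗ[ℝ] V)).add continuous_const
  obtain ⟨C, hC⟩ : ∃ C, C = (fun x => L x + t) '' convexHull ℝ (insert a S) := ⟨_, rfl⟩
  obtain ⟨K, hK⟩ : ∃ K, K = (fun x => L x + t) '' TC τ a S := ⟨_, rfl⟩
  have hfin : volume C ≠ ⊤ := by
    rw [hC]
    exact ((isCompact_cone hS hc).image hcont).measure_lt_top.ne
  have hsub : C ⊆ K ∪ τ • C := by
    rw [hC, hK]
    rintro _ ⟨x, hx, rfl⟩
    rcases cone_subset h0 h1 hc hne hx with h | ⟨y, hy, rfl⟩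
    · exact Or.inl ⟨x, h, rfl⟩
    · right
      refine ⟨L y + t, ⟨y, hy, rfl⟩, ?_⟩
      show τ • (L y + t) = L (hm τ a y) + t
      have ht : t = -(L a) := by
        rw [← add_eq_zero_iff_eq_neg, add_comm]
        exact hLt
      rw [ht]
      unfold hm
      rw [map_add, map_smul, map_sub]
      simp only [smul_add, smul_sub, smul_neg]
      abel
  have hle : volume C ≤ volume K + ENNReal.ofReal (τ ^ 3) * volume C := by
    have h2 := (measure_mono hsub).trans (measure_union_le (μ := volume) K (τ • C))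
    rw [Measure.addHaar_smul_of_nonneg _ h0] at h2
    simpa using h2
  have hτ3 : τ ^ 3 ≤ 1 := pow_le_one₀ h0 h1.le
  have hτ30 : 0 ≤ τ ^ 3 := pow_nonneg h0 3
  have hsum : volume C = ENNReal.ofReal (1 - τ ^ 3) * volume C +
      ENNReal.ofReal (τ ^ 3) * volume C := by
    rw [← add_mul, ← ENNReal.ofReal_add (by linarith) hτ30]
    simp
  have hfin2 : ENNReal.ofReal (τ ^ 3) * volume C ≠ ⊤ := ENNReal.mul_ne_top ENNReal.ofReal_ne_top hfin
  have h3 : ENNReal.ofReal (1 - τ ^ 3) * volume C ≤ volume K := by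
    have h4 : ENNReal.ofReal (1 - τ ^ 3) * volume C + ENNReal.ofReal (τ ^ 3) * volume C ≤
        volume K + ENNReal.ofReal (τ ^ 3) * volume C := by
      rw [← hsum]; exact hle
    exact (ENNReal.add_le_add_iff_right hfin2).1 h4
  rw [← hK]
  refine le_trans ?_ h3
  rw [ENNReal.ofReal_mul (by linarith)]
  rw [← hC] at hv
  gcongr

/-- the constraints -/
theorem cons_TC {τ : ℝ} (h0 : 0 ≤ τ) (h1 : τ ≤ 1) {a : V} {S : Set V}
    (L : V ≃ₗ[ℝ] V) (t : V) (hLt : L a + t = 0)
    (hsum : ∀ x ∈ S, (L x + t) 0 + (L x + t) 1 + (L x + t) 2 = 1) {P : Fin 3 → V} {r : V}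
    (h : NF ((fun x => L x + t) '' convexHull ℝ (insert a S)) P r) :
    Cons τ r ((fun x => L x + t) '' TC τ a S) := by
  rintro _ ⟨x, hx, rfl⟩
  have h2 := h.cone _ ⟨x, TC_subset h0 h1 hx, rfl⟩
  refine ⟨?_, h2.2⟩
  have hconv : Convex ℝ {x : V | τ ≤ (L x + t) 0 + (L x + t) 1 + (L x + t) 2} := by
    intro x hx y hy p q hp hq hpq
    have e : ∀ n, (L (p • x + q • y) + t) n = p * (L x + t) n + q * (L y + t) n := by
      intro n
      have ht : t n = (p + q) * t n := by rw [hpq, one_mul]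
      simp only [map_add, map_smul, Pi.add_apply, Pi.smul_apply, smul_eq_mul]
      linear_combination ht
    show τ ≤ _
    rw [e, e, e]
    have hx' : τ ≤ (L x + t) 0 + (L x + t) 1 + (L x + t) 2 := hx
    have hy' : τ ≤ (L y + t) 0 + (L y + t) 1 + (L y + t) 2 := hy
    have a1 := mul_le_mul_of_nonneg_left hx' hp
    have a2 := mul_le_mul_of_nonneg_left hy' hq
    have a3 : p * τ + q * τ = τ := by rw [← add_mul, hpq, one_mul]
    linarith
  have h3 := convexHull_min (s := S ∪ hm τ a '' S) ?_ hconv hx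
  · exact h3
  · rintro y (hy | ⟨z, hz, rfl⟩)
    · show τ ≤ _
      rw [hsum y hy]
      exact h1
    · show τ ≤ _
      have ht : t = -(L a) := by
        rw [← add_eq_zero_iff_eq_neg, add_comm]
        exact hLt
      have e : L (hm τ a z) + t = τ • (L z + t) := by
        rw [ht]
        unfold hm
        rw [map_add, map_smul, map_sub]
        simp only [smul_add, smul_sub, smul_neg]
        abel
      rw [e]
      have h4 := hsum z hz
      simp only [Pi.smul_apply, smul_eq_mul]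
      rw [← mul_add, ← mul_add, h4, mul_one]

end Pool.Agent.J4.H72.FR
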